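import Pool.Agent.Helper64.PQ.Goals

set_option autoImplicit false

/-!
Project PQ (MP_2b9d24_gt), packet C5.
-/

open Topology Filter Set Metric UpperHalfPlane
open scoped MatrixGroups
open Pool.Agent.Helper64.PQ

namespace Pool.Agent.Helper32.PQ

lemma coe_sl (M : SL(2, ℝ)) (z : ℍ) :
    ((M • z : ℍ) : ℂ) = ((M 0 0 : ℂ) * z + (M 0 1 : ℂ)) / ((M 1 0 : ℂ) * z + (M 1 1 : ℂ)) := by
  rw [UpperHalfPlane.coe_specialLinearGroup_apply]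
  rfl

lemma im_sl (M : SL(2, ℝ)) (z : ℍ) :
    (M • z : ℍ).im * Complex.normSq ((M 1 0 : ℂ) * z + (M 1 1 : ℂ)) = z.im := by
  have hdet : M 0 0 * M 1 1 - M 0 1 * M 1 0 = 1 := by
    have h := M.det_coe
    rwa [Matrix.det_fin_two] at h
  have hne : ((M 1 0 : ℂ) * z + (M 1 1 : ℂ)) ≠ 0 := by
    intro h0
    have h1 := congrArg Complex.im h0
    have h2 := congrArg Complex.re h0
    simp only [Complex.add_im, Complex.mul_im, Complex.ofReal_re, Complex.ofReal_im, zero_mul,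
      add_zero, Complex.zero_im, Complex.add_re, Complex.mul_re, sub_zero, Complex.zero_re] at h1 h2
    have h3 : M 1 0 = 0 := by
      rcases mul_eq_zero.1 h1 with h | h
      · exact h
      · exact absurd h z.im_pos.ne'
    rw [h3, zero_mul, zero_add] at h2
    rw [h3, h2] at hdet
    simp at hdet
  have hpos : 0 < Complex.normSq ((M 1 0 : ℂ) * z + (M 1 1 : ℂ)) := Complex.normSq_pos.2 hne
  rw [← UpperHalfPlane.coe_im, coe_sl, Complex.div_im, ← sub_div, div_mul_cancel₀ _ hpos.ne']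
  simp only [Complex.add_im, Complex.mul_im, Complex.ofReal_re, Complex.ofReal_im, zero_mul,
      add_zero, Complex.add_re, Complex.mul_re, sub_zero, UpperHalfPlane.coe_im,
      UpperHalfPlane.coe_re]
  linear_combination z.im * hdet

lemma im_lt_one {M : SL(2, ℝ)} (h : 1 ≤ |M 1 0|) {z : ℍ} (hz : 1 < z.im) :
    (M • z : ℍ).im < 1 := by
  have h1 := im_sl M z
  have h2 : z.im ^ 2 ≤ Complex.normSq ((M 1 0 : ℂ) * z + (M 1 1 : ℂ)) := by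
    rw [Complex.normSq_apply]
    simp only [Complex.add_im, Complex.mul_im, Complex.ofReal_re, Complex.ofReal_im, zero_mul,
      add_zero, Complex.add_re, Complex.mul_re, sub_zero, UpperHalfPlane.coe_im,
      UpperHalfPlane.coe_re]
    have h3 : 1 ≤ M 1 0 * M 1 0 := by
      have := mul_le_mul h h zero_le_one (abs_nonneg _)
      rwa [← abs_mul, one_mul, abs_mul_self] at this
    have h4 : z.im ^ 2 ≤ (M 1 0 * z.im) * (M 1 0 * z.im) := by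
      nlinarith [sq_nonneg z.im]
    nlinarith [mul_self_nonneg (M 1 0 * z.re + M 1 1)]
  by_contra h5
  have h5 := not_lt.1 h5
  nlinarith [z.im_pos]

/-- The translation by `x`. -/
def Tr (x : ℝ) : SL(2, ℝ) := ⟨!![1, x; 0, 1], by simp [Matrix.det_fin_two]⟩

lemma Tr_00 (x : ℝ) : Tr x 0 0 = 1 := rfl
lemma Tr_01 (x : ℝ) : Tr x 0 1 = x := rfl
lemma Tr_10 (x : ℝ) : Tr x 1 0 = 0 := rfl
lemma Tr_11 (x : ℝ) : Tr x 1 1 = 1 := rfl

lemma coe_Tr (x : ℝ) (z : ℍ) : ((Tr x • z : ℍ) : ℂ) = z + x := by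
  rw [coe_sl, Tr_00, Tr_01, Tr_10, Tr_11]
  simp

lemma sl_ext {A B : SL(2, ℝ)} (h00 : A 0 0 = B 0 0) (h01 : A 0 1 = B 0 1) (h10 : A 1 0 = B 1 0)
    (h11 : A 1 1 = B 1 1) : A = B := by
  ext i j
  fin_cases i <;> fin_cases j <;> assumption

lemma mul_00 (A B : SL(2, ℝ)) : (A * B) 0 0 = A 0 0 * B 0 0 + A 0 1 * B 1 0 := by
  rw [Matrix.SpecialLinearGroup.coe_mul, Matrix.mul_apply, Fin.sum_univ_two]
lemma mul_01 (A B : SL(2, ℝ)) : (A * B) 0 1 = A 0 0 * B 0 1 + A 0 1 * B 1 1 := by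
  rw [Matrix.SpecialLinearGroup.coe_mul, Matrix.mul_apply, Fin.sum_univ_two]
lemma mul_10 (A B : SL(2, ℝ)) : (A * B) 1 0 = A 1 0 * B 0 0 + A 1 1 * B 1 0 := by
  rw [Matrix.SpecialLinearGroup.coe_mul, Matrix.mul_apply, Fin.sum_univ_two]
lemma mul_11 (A B : SL(2, ℝ)) : (A * B) 1 1 = A 1 0 * B 0 1 + A 1 1 * B 1 1 := by
  rw [Matrix.SpecialLinearGroup.coe_mul, Matrix.mul_apply, Fin.sum_univ_two]

lemma inv_00 (A : SL(2, ℝ)) : A⁻¹ 0 0 = A 1 1 := by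
  rw [Matrix.SpecialLinearGroup.coe_inv, Matrix.adjugate_fin_two]
  rfl
lemma inv_01 (A : SL(2, ℝ)) : A⁻¹ 0 1 = - A 0 1 := by
  rw [Matrix.SpecialLinearGroup.coe_inv, Matrix.adjugate_fin_two]
  rfl
lemma inv_10 (A : SL(2, ℝ)) : A⁻¹ 1 0 = - A 1 0 := by
  rw [Matrix.SpecialLinearGroup.coe_inv, Matrix.adjugate_fin_two]
  rfl
lemma inv_11 (A : SL(2, ℝ)) : A⁻¹ 1 1 = A 0 0 := by
  rw [Matrix.SpecialLinearGroup.coe_inv, Matrix.adjugate_fin_two]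
  rfl

lemma det_sl (M : SL(2, ℝ)) : M 0 0 * M 1 1 - M 0 1 * M 1 0 = 1 := by
  have h := M.det_coe
  rwa [Matrix.det_fin_two] at h

lemma Tr_add (x y : ℝ) : Tr (x + y) = Tr x * Tr y := by
  apply sl_ext
  · rw [mul_00]; simp [Tr_00, Tr_01, Tr_10]
  · rw [mul_01]; simp [Tr_00, Tr_01, Tr_11]; ring
  · rw [mul_10]; simp [Tr_10, Tr_00, Tr_11]
  · rw [mul_11]; simp [Tr_10, Tr_11]

lemma Tr_zero : Tr 0 = 1 := by
  apply sl_ext <;> simp [Tr_00, Tr_01, Tr_10, Tr_11]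

lemma Tr_neg (x : ℝ) : Tr (-x) = (Tr x)⁻¹ := by
  rw [eq_comm, inv_eq_iff_mul_eq_one, ← Tr_add, add_neg_cancel, Tr_zero]

lemma Tr_one : Tr 1 = T1 := rfl

lemma Tr_mem {Γ : Subgroup SL(2, ℝ)} (hΓ : Fuchs Γ) (n : ℤ) : Tr n ∈ Γ := by
  have hnat : ∀ m : ℕ, Tr m ∈ Γ := by
    intro m
    induction m with
    | zero => rw [Nat.cast_zero, Tr_zero]; exact Γ.one_mem
    | succ m ih => rw [Nat.cast_succ, Tr_add]; exact Γ.mul_mem ih hΓ.T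
  rcases Int.eq_nat_or_neg n with ⟨m, rfl | rfl⟩
  · simpa using hnat m
  · have := Γ.inv_mem (hnat m)
    rw [← Tr_neg] at this
    simpa using this

/-- Elements of `Γ` fixing infinity act as integer translations. -/
lemma up_smul {Γ : Subgroup SL(2, ℝ)} (hΓ : Fuchs Γ) {s : SL(2, ℝ)} (hs : s ∈ Γ)
    (h0 : s 1 0 = 0) : ∃ n : ℤ, ∀ z : ℍ, s • z = Tr n • z := by
  obtain ⟨h1, n, hn⟩ := hΓ.up s hs h0
  refine ⟨n, fun z => ?_⟩
  apply UpperHalfPlane.ext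
  rw [coe_Tr, coe_sl, h0, hn]
  have hd := det_sl s
  rw [h0, mul_zero, sub_zero] at hd
  have hsq : s 0 0 * s 0 0 = 1 := by
    rw [← abs_mul_abs_self, h1, one_mul]
  have h11 : s 1 1 = s 0 0 := by
    have hne : s 0 0 ≠ 0 := by
      intro h
      rw [h] at hsq
      simp at hsq
    exact mul_left_cancel₀ hne (hd.trans hsq.symm)
  have hneC : (s 0 0 : ℂ) ≠ 0 := by
    intro h
    have h' : s 0 0 = 0 := by exact_mod_cast h
    rw [h'] at hsq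
    simp at hsq
  rw [h11, Complex.ofReal_mul, Complex.ofReal_zero, zero_mul, zero_add, div_eq_iff hneC]
  push_cast
  ring

lemma im_Tr (x : ℝ) (z : ℍ) : (Tr x • z : ℍ).im = z.im := by
  rw [← UpperHalfPlane.coe_im, coe_Tr]
  simp

lemma im_up {Γ : Subgroup SL(2, ℝ)} (hΓ : Fuchs Γ) {s : SL(2, ℝ)} (hs : s ∈ Γ)
    (h0 : s 1 0 = 0) (z : ℍ) : (s • z : ℍ).im = z.im := by
  obtain ⟨n, hn⟩ := up_smul hΓ hs h0
  rw [hn, im_Tr]

/-! ### Csp -/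

lemma exists_high (h : ℝ) : ∃ z : ℍ, h < z.im := by
  refine ⟨⟨⟨0, max h 0 + 1⟩, ?_⟩, ?_⟩
  · have := le_max_right h 0
    change (0 : ℝ) < max h 0 + 1
    linarith
  · have := le_max_left h 0
    change h < max h 0 + 1
    linarith

lemma csp_comp {F G : ℍ → ℍ} {a b c : SL(2, ℝ)} (h1 : Csp F a b) (h2 : Csp G b c) :
    Csp (fun v => G (F v)) a c := by
  intro h' hh'
  obtain ⟨h1', hh1, hh2⟩ := h2 h' hh'
  obtain ⟨h3, hh3, hh4⟩ := h1 h1' hh1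
  refine ⟨h3, hh3, fun z hz => ?_⟩
  have := hh2 _ (hh4 z hz)
  rwa [smul_inv_smul] at this

lemma csp_conj {F : ℍ → ℍ} {a b g g' : SL(2, ℝ)} (h : Csp F (a * g) g') :
    Csp (fun v => b⁻¹ • F (a • v)) g (b⁻¹ * g') := by
  intro h' hh'
  obtain ⟨h1, hh1, hh2⟩ := h h' hh'
  refine ⟨h1, hh1, fun z hz => ?_⟩
  have := hh2 z hz
  rw [← mul_smul, ← mul_smul, mul_inv_rev, inv_inv, mul_assoc, mul_inv_cancel, mul_one]
  exact this

lemma csp_left {F : ℍ → ℍ} {a b s : SL(2, ℝ)} (hs : ∀ z : ℍ, (s • z : ℍ).im = z.im)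
    (h : Csp F a b) : Csp F (a * s) b := by
  intro h' hh'
  obtain ⟨h1, hh1, hh2⟩ := h h' hh'
  refine ⟨h1, hh1, fun z hz => ?_⟩
  rw [mul_smul]
  exact hh2 _ (by rw [hs]; exact hz)

lemma csp_right {F : ℍ → ℍ} {a b s : SL(2, ℝ)} (hs : ∀ z : ℍ, (s • z : ℍ).im = z.im)
    (h : Csp F a b) : Csp F a (b * s) := by
  intro h' hh'
  obtain ⟨h1, hh1, hh2⟩ := h h' hh'
  refine ⟨h1, hh1, fun z hz => ?_⟩
  have e : (s⁻¹ • (b⁻¹ • F (a • z)) : ℍ).im = (b⁻¹ • F (a • z) : ℍ).im := by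
    have := hs (s⁻¹ • (b⁻¹ • F (a • z)))
    rw [smul_inv_smul] at this
    exact this.symm
  rw [mul_inv_rev, mul_smul, e]
  exact hh2 z hz

lemma csp_unique {Γ : Subgroup SL(2, ℝ)} (hΓ : Fuchs Γ) {F : ℍ → ℍ} {a b b' : SL(2, ℝ)}
    (hb : b ∈ Γ) (hb' : b' ∈ Γ) (h : Csp F a b) (h' : Csp F a b') : (b⁻¹ * b') 1 0 = 0 := by
  obtain ⟨h1, -, h2⟩ := h 1 le_rfl
  obtain ⟨h3, -, h4⟩ := h' 1 le_rfl
  obtain ⟨z, hz⟩ := exists_high (max h1 h3)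
  have hz1 := h2 z (lt_of_le_of_lt (le_max_left _ _) hz)
  have hz2 := h4 z (lt_of_le_of_lt (le_max_right _ _) hz)
  rcases hΓ.c _ (Γ.mul_mem (Γ.inv_mem hb) hb') with h5 | h5
  · exact h5
  · exfalso
    have h6 := im_lt_one h5 hz2
    rw [← mul_smul, mul_assoc, mul_inv_cancel, mul_one] at h6
    linarith

lemma mkC_eq_iff' {Γ : Subgroup SL(2, ℝ)} (a b : Γ) :
    mkC a = mkC b ↔ ((a : SL(2, ℝ))⁻¹ * b) 1 0 = 0 := by
  exact @Quotient.eq _ (cuspRel Γ) a b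

lemma csp_congr {Γ : Subgroup SL(2, ℝ)} (hΓ : Fuchs Γ) {F : ℍ → ℍ} {a a' : Γ} {b : SL(2, ℝ)}
    (h : mkC a = mkC a') (hc : Csp F a b) : Csp F a' b := by
  rw [mkC_eq_iff'] at h
  have h1 := csp_left (F := F) (a := a) (b := b) (s := (a : SL(2, ℝ))⁻¹ * a')
    (fun z => im_up hΓ (Γ.mul_mem (Γ.inv_mem a.2) a'.2) h z) hc
  rwa [mul_inv_cancel_left] at h1

lemma csp_congr' {Γ : Subgroup SL(2, ℝ)} (hΓ : Fuchs Γ) {F : ℍ → ℍ} {a a' : Γ} {b : SL(2, ℝ)}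
    (h : mkC a = mkC a') (hc : Csp F b a) : Csp F b a' := by
  rw [mkC_eq_iff'] at h
  have h1 := csp_right (F := F) (a := b) (b := a) (s := (a : SL(2, ℝ))⁻¹ * a')
    (fun z => im_up hΓ (Γ.mul_mem (Γ.inv_mem a.2) a'.2) h z) hc
  rwa [mul_inv_cancel_left] at h1

lemma csp_id (a : SL(2, ℝ)) : Csp (fun v => v) a a := by
  intro h' hh'
  refine ⟨h', hh', fun z hz => ?_⟩
  rw [inv_smul_smul]
  exact hz

/-- The hypotheses of the goal. -/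
structure HF (Γ : Subgroup SL(2, ℝ)) (F : ℍ ≃ₜ ℍ) : Prop where
  e1 : ∀ γ ∈ Γ, ∃ γ' ∈ Γ, ∀ v : ℍ, F (γ • v) = γ' • F v
  e2 : ∀ γ ∈ Γ, ∃ γ' ∈ Γ, ∀ v : ℍ, F.symm (γ • v) = γ' • F.symm v
  c1 : ∀ α ∈ Γ, ∃ β ∈ Γ, Csp F α β
  c2 : ∀ α ∈ Γ, ∃ β ∈ Γ, Csp F.symm α β

lemma HF.symm {Γ : Subgroup SL(2, ℝ)} {F : ℍ ≃ₜ ℍ} (h : HF Γ F) : HF Γ F.symm :=
  ⟨h.e2, h.e1, h.c2, h.c1⟩

lemma csp_symm {Γ : Subgroup SL(2, ℝ)} (hΓ : Fuchs Γ) {F : ℍ ≃ₜ ℍ} (hF : HF Γ F) {a b : Γ}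
    (h : Csp F a b) : Csp F.symm b a := by
  obtain ⟨c, hc, hc'⟩ := hF.c2 b b.2
  have h1 := csp_comp h hc'
  simp only [Homeomorph.symm_apply_apply] at h1
  have h2 := csp_unique hΓ hc a.2 h1 (csp_id _)
  exact csp_congr' hΓ (a := ⟨c, hc⟩) ((mkC_eq_iff' _ _).2 h2) hc'

lemma Tr_nat_equiv {G : ℍ → ℍ} {k : ℤ} (h : ∀ v : ℍ, G (Tr 1 • v) = Tr k • G v) (n : ℕ) (v : ℍ) :
    G (Tr n • v) = Tr (k * n) • G v := by
  induction n with
  | zero => simp [Tr_zero]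
  | succ n ih =>
    rw [Nat.cast_succ, add_comm, Tr_add, mul_smul, h, ih, ← mul_smul, ← Tr_add]
    congr 2
    ring

lemma Tr_int_equiv {G : ℍ → ℍ} {k : ℤ} (h : ∀ v : ℍ, G (Tr 1 • v) = Tr k • G v) (n : ℤ) (v : ℍ) :
    G (Tr n • v) = Tr (k * n) • G v := by
  rcases Int.eq_nat_or_neg n with ⟨m, rfl | rfl⟩
  · have := Tr_nat_equiv h m v
    simpa using this
  · have := Tr_nat_equiv h m (Tr (-m) • v)
    rw [← mul_smul, ← Tr_add, add_neg_cancel, Tr_zero, one_smul] at this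
    rw [Int.cast_neg, Int.cast_natCast, this, ← mul_smul, ← Tr_add, mul_neg, neg_add_cancel,
      Tr_zero, one_smul]

lemma rr_Tr_mul (x : ℝ) {g : SL(2, ℝ)} (hg : g 1 0 ≠ 0) : rr (Tr x * g) = rr g + x := by
  rw [rr, rr, mul_00, mul_10, Tr_00, Tr_01, Tr_10, Tr_11, one_mul, zero_mul, one_mul, zero_add]
  field_simp

lemma Tr_mul_10 (x : ℝ) (g : SL(2, ℝ)) : (Tr x * g) 1 0 = g 1 0 := by
  rw [mul_10, Tr_10, Tr_11]
  simp

lemma rr_eq_iff {g h : SL(2, ℝ)} (hg : g 1 0 ≠ 0) (hh : h 1 0 ≠ 0) :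
    rr g = rr h ↔ (g⁻¹ * h) 1 0 = 0 := by
  rw [rr, rr, mul_10, inv_10, inv_11, div_eq_div_iff hg hh]
  constructor
  · intro h1
    linear_combination h1
  · intro h1
    linear_combination h1

/-- The normalized one-sided statement. -/
lemma norm_le (h2 : GoalC2) {Γ : Subgroup SL(2, ℝ)} (hΓ : Fuchs Γ) {F : ℍ ≃ₜ ℍ} (hF : HF Γ F)
    (h1 : Csp F 1 1) {g h g' h' : Γ} (hg0 : (g : SL(2, ℝ)) 1 0 ≠ 0)
    (hh0 : (h : SL(2, ℝ)) 1 0 ≠ 0) (hg0' : (g' : SL(2, ℝ)) 1 0 ≠ 0)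
    (hh0' : (h' : SL(2, ℝ)) 1 0 ≠ 0) (hg : Csp F g g') (hh : Csp F h h') (m : ℕ)
    (hm : |rr (h : SL(2, ℝ)) - rr (g : SL(2, ℝ))| ≤ m) :
    |rr (h' : SL(2, ℝ)) - rr (g' : SL(2, ℝ))| ≤ m := by
  have s1 : Csp F.symm 1 1 := csp_symm hΓ hF (a := 1) (b := 1) h1
  have sg : Csp F.symm g' g := csp_symm hΓ hF hg
  have sh : Csp F.symm h' h := csp_symm hΓ hF hh
  obtain ⟨M, hM, hM'⟩ := hF.e2 T1 hΓ.T
  have hM0 : M 1 0 = 0 := by
    obtain ⟨t, -, ht⟩ := s1 1 le_rfl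
    obtain ⟨z, hz⟩ := exists_high t
    have hz1 := ht z hz
    have hz2 := ht (T1 • z) (by rw [← Tr_one, im_Tr]; exact hz)
    rw [inv_one, one_smul, one_smul] at hz1 hz2
    rw [hM'] at hz2
    rcases hΓ.c M hM with h5 | h5
    · exact h5
    · exfalso
      have h6 := im_lt_one h5 hz1
      linarith
  obtain ⟨k, hk⟩ := up_smul hΓ hM hM0
  have hG1 : ∀ v : ℍ, F.symm (Tr 1 • v) = Tr k • F.symm v := by
    intro v
    rw [Tr_one, hM', hk]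
  have hG : ∀ (n : ℤ) (v : ℍ), F.symm (Tr n • v) = Tr (k * n) • F.symm v :=
    fun n v => Tr_int_equiv hG1 n v
  have hk0 : k ≠ 0 := by
    intro h0
    have h3 := hG1 UpperHalfPlane.I
    rw [h0, Int.cast_zero, Tr_zero, one_smul] at h3
    have h4 := F.symm.injective h3
    have h5 := congrArg (fun z : ℍ => (z : ℂ)) h4
    simp only [coe_Tr] at h5
    simp at h5
  have hT : ∀ j : ℤ, Csp F.symm (Tr j * g') (Tr (k * j) * g) := by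
    intro j t ht
    obtain ⟨t1, ht1, ht2⟩ := sg t ht
    refine ⟨t1, ht1, fun z hz => ?_⟩
    rw [mul_smul, hG, mul_inv_rev, mul_smul, inv_smul_smul]
    exact ht2 z hz
  have hTm : ∀ j : ℤ, Tr (k * j) * (g : SL(2, ℝ)) ∈ Γ := by
    intro j
    have := Γ.mul_mem (Tr_mem hΓ (k * j)) g.2
    rwa [Int.cast_mul] at this
  have hTm' : ∀ j : ℤ, Tr j * (g' : SL(2, ℝ)) ∈ Γ := fun j => Γ.mul_mem (Tr_mem hΓ j) g'.2
  have key : ∀ j : ℤ, rr (h : SL(2, ℝ)) = rr (g : SL(2, ℝ)) + k * j →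
      rr (h' : SL(2, ℝ)) = rr (g' : SL(2, ℝ)) + j := by
    intro j hj
    have e1 : Csp F (Tr (k * j) * g) (Tr j * g') :=
      csp_symm hΓ hF.symm (a := ⟨_, hTm' j⟩) (b := ⟨_, hTm j⟩) (hT j)
    rw [← rr_Tr_mul _ hg0] at hj
    have e2 := (rr_eq_iff (g := Tr (k * j) * g) (h := h) (by rw [Tr_mul_10]; exact hg0) hh0).1
      hj.symm
    have e3 : Csp F h (Tr j * g') :=
      csp_congr hΓ (a := ⟨_, hTm j⟩) (a' := h) ((mkC_eq_iff' _ _).2 e2) e1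
    have e4 := csp_unique hΓ (hTm' j) h'.2 e3 hh
    have e5 := (rr_eq_iff (g := Tr j * g') (h := h') (by rw [Tr_mul_10]; exact hg0') hh0').2 e4
    rw [← e5, rr_Tr_mul _ hg0']
  rcases Nat.eq_zero_or_pos m with rfl | hmpos
  · rw [Nat.cast_zero] at hm ⊢
    have e1 : rr (h : SL(2, ℝ)) - rr (g : SL(2, ℝ)) = 0 := abs_nonpos_iff.1 hm
    have e2 := key 0 (by rw [Int.cast_zero]; linarith)
    rw [e2]
    simp
  · by_contra hcon
    have hcon := not_le.1 hcon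
    have hm1 : (1 : ℝ) ≤ m := by exact_mod_cast hmpos
    have f1 := hT (-m)
    have f2 := hT m
    have c2 := h2 F.symm F.symm.continuous F.symm.injective s1
      (Tr ((-m : ℤ) : ℝ) * g') (Tr ((m : ℤ) : ℝ) * g') h' (Tr (k * ((-m : ℤ) : ℝ)) * g)
      (Tr (k * ((m : ℤ) : ℝ)) * g) h (by rw [Tr_mul_10]; exact hg0')
      (by rw [Tr_mul_10]; exact hg0') hh0' (by rw [Tr_mul_10]; exact hg0)
      (by rw [Tr_mul_10]; exact hg0) hh0 f1 f2 sh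
      (by
        rw [rr_Tr_mul _ hg0', rr_Tr_mul _ hg0']
        push_cast
        linarith)
      (by
        rw [rr_Tr_mul _ hg0', rr_Tr_mul _ hg0']
        push_cast
        rcases lt_abs.1 hcon with h5 | h5
        · right
          linarith
        · left
          linarith)
    rw [rr_Tr_mul _ hg0, rr_Tr_mul _ hg0] at c2
    push_cast at c2
    have hkabs : (1 : ℝ) ≤ |(k : ℝ)| := by
      have : (1 : ℤ) ≤ |k| := Int.one_le_abs hk0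
      exact_mod_cast this
    have c3 : |(k : ℝ)| * m ≤ |rr (h : SL(2, ℝ)) - rr (g : SL(2, ℝ))| := by
      by_contra c4
      have c4 := not_le.1 c4
      apply c2
      rw [abs_lt] at c4
      rcases abs_cases (k : ℝ) with ⟨c5, -⟩ | ⟨c5, -⟩
      · rw [c5] at c4
        constructor
        · apply lt_of_le_of_lt (min_le_left _ _)
          linarith [c4.1]
        · apply lt_of_lt_of_le _ (le_max_right _ _)
          linarith [c4.2]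
      · rw [c5] at c4
        constructor
        · apply lt_of_le_of_lt (min_le_right _ _)
          linarith [c4.1]
        · apply lt_of_lt_of_le _ (le_max_left _ _)
          linarith [c4.2]
    have c6 : |(k : ℝ)| = 1 := by
      apply le_antisymm _ hkabs
      have : |(k : ℝ)| * m ≤ 1 * m := by linarith
      exact le_of_mul_le_mul_right this (by linarith)
    have c7 : |rr (h : SL(2, ℝ)) - rr (g : SL(2, ℝ))| = m := by
      apply le_antisymm hm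
      rw [c6, one_mul] at c3
      exact c3
    have c8 : (k : ℝ) * k = 1 := by
      rw [← abs_mul_abs_self, c6, one_mul]
    have hm0 : (0 : ℝ) ≤ m := by linarith
    rcases (abs_eq hm0).1 c7 with c9 | c9
    · have c10 := key (k * m) (by
        push_cast
        linear_combination c9 - (m : ℝ) * c8)
      rw [c10] at hcon
      push_cast at hcon
      rw [add_sub_cancel_left, abs_mul, c6, one_mul, abs_of_nonneg hm0] at hcon
      exact lt_irrefl _ hcon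
    · have c10 := key (-(k * m)) (by
        push_cast
        linear_combination c9 + (m : ℝ) * c8)
      rw [c10] at hcon
      push_cast at hcon
      rw [add_sub_cancel_left, abs_neg, abs_mul, c6, one_mul, abs_of_nonneg hm0] at hcon
      exact lt_irrefl _ hcon

/-- The conjugated homeomorphism. -/
noncomputable def cj (a b : SL(2, ℝ)) (F : ℍ ≃ₜ ℍ) : ℍ ≃ₜ ℍ :=
  ((Homeomorph.smul a).trans F).trans (Homeomorph.smul b⁻¹)

lemma cj_apply (a b : SL(2, ℝ)) (F : ℍ ≃ₜ ℍ) (v : ℍ) : cj a b F v = b⁻¹ • F (a • v) := rfl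

lemma cj_symm (a b : SL(2, ℝ)) (F : ℍ ≃ₜ ℍ) : (cj a b F).symm = cj b a F.symm := by
  ext1 v
  rw [Homeomorph.symm_apply_eq, cj_apply, cj_apply, smul_inv_smul, Homeomorph.apply_symm_apply,
    inv_smul_smul]

lemma HF.conj_aux {Γ : Subgroup SL(2, ℝ)} {F : ℍ ≃ₜ ℍ} (hF : HF Γ F) {a b : SL(2, ℝ)}
    (ha : a ∈ Γ) (hb : b ∈ Γ) : (∀ γ ∈ Γ, ∃ γ' ∈ Γ, ∀ v : ℍ, cj a b F (γ • v) = γ' • cj a b F v) ∧
    ∀ α ∈ Γ, ∃ β ∈ Γ, Csp (cj a b F) α β := by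
  constructor
  · intro γ hγ
    obtain ⟨δ, hδ, hδ'⟩ := hF.e1 (a * γ * a⁻¹) (Γ.mul_mem (Γ.mul_mem ha hγ) (Γ.inv_mem ha))
    refine ⟨b⁻¹ * δ * b, Γ.mul_mem (Γ.mul_mem (Γ.inv_mem hb) hδ) hb, fun v => ?_⟩
    rw [cj_apply, cj_apply, mul_smul, smul_inv_smul, mul_smul, ← hδ', mul_smul, inv_smul_smul,
      mul_smul]
  · intro α hα
    obtain ⟨β, hβ, hβ'⟩ := hF.c1 (a * α) (Γ.mul_mem ha hα)
    exact ⟨b⁻¹ * β, Γ.mul_mem (Γ.inv_mem hb) hβ, csp_conj hβ'⟩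

lemma HF.conj {Γ : Subgroup SL(2, ℝ)} {F : ℍ ≃ₜ ℍ} (hF : HF Γ F) {a b : SL(2, ℝ)}
    (ha : a ∈ Γ) (hb : b ∈ Γ) : HF Γ (cj a b F) := by
  obtain ⟨h1, h2⟩ := hF.conj_aux ha hb
  obtain ⟨h3, h4⟩ := hF.symm.conj_aux hb ha
  refine ⟨h1, ?_, h2, ?_⟩
  · rw [cj_symm]
    exact h3
  · rw [cj_symm]
    exact h4

lemma dist_le (h2 : GoalC2) {Γ : Subgroup SL(2, ℝ)} (hΓ : Fuchs Γ) {F : ℍ ≃ₜ ℍ} (hF : HF Γ F)
    {a b c a' b' c' : Γ} (ha : Csp F a a') (hb : Csp F b b') (hc : Csp F c c')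
    (hba : mkC b ≠ mkC a) (hca : mkC c ≠ mkC a) (hba' : mkC b' ≠ mkC a')
    (hca' : mkC c' ≠ mkC a') (m : ℕ)
    (hm : |rr ((a : SL(2, ℝ))⁻¹ * c) - rr ((a : SL(2, ℝ))⁻¹ * b)| ≤ m) :
    |rr ((a' : SL(2, ℝ))⁻¹ * c') - rr ((a' : SL(2, ℝ))⁻¹ * b')| ≤ m := by
  have e : ∀ x y : Γ, mkC y ≠ mkC x → ((x : SL(2, ℝ))⁻¹ * y) 1 0 ≠ 0 := by
    intro x y hxy h0
    exact hxy ((mkC_eq_iff' _ _).2 h0).symm
  have key := norm_le h2 hΓ (hF.conj a.2 a'.2) (g := a⁻¹ * b) (h := a⁻¹ * c) (g' := a'⁻¹ * b')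
    (h' := a'⁻¹ * c') ?_ (e _ _ hba) (e _ _ hca) (e _ _ hba') (e _ _ hca') ?_ ?_ m hm
  · exact key
  · have := csp_conj (F := F) (a := a) (b := a') (g := 1) (g' := a') (by rw [mul_one]; exact ha)
    rw [inv_mul_cancel] at this
    exact this
  · exact csp_conj (F := F) (a := a) (b := a') (g := (a : SL(2, ℝ))⁻¹ * b) (g' := b')
      (by rw [mul_inv_cancel_left]; exact hb)
  · exact csp_conj (F := F) (a := a) (b := a') (g := (a : SL(2, ℝ))⁻¹ * c) (g' := c')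
      (by rw [mul_inv_cancel_left]; exact hc)

lemma ind_mkC' {Γ : Subgroup SL(2, ℝ)} (x : Cusp Γ) : ∃ a : Γ, x = mkC a := by
  obtain ⟨a, rfl⟩ := Quotient.exists_rep x
  exact ⟨a, rfl⟩

/-- The map of the cusps. -/
noncomputable def sg {Γ : Subgroup SL(2, ℝ)} {F : ℍ ≃ₜ ℍ} (hF : HF Γ F) (x : Cusp Γ) : Cusp Γ :=
  mkC ⟨(hF.c1 (Quotient.out x : Γ) (Quotient.out x : Γ).2).choose,
    (hF.c1 (Quotient.out x : Γ) (Quotient.out x : Γ).2).choose_spec.1⟩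

lemma sg_spec {Γ : Subgroup SL(2, ℝ)} (hΓ : Fuchs Γ) {F : ℍ ≃ₜ ℍ} (hF : HF Γ F) {a b : Γ}
    (h : Csp F a b) : sg hF (mkC a) = mkC b := by
  have h1 := (hF.c1 (Quotient.out (mkC a) : Γ) (Quotient.out (mkC a) : Γ).2).choose_spec
  have h2 : mkC (Quotient.out (mkC a) : Γ) = mkC a := Quotient.out_eq (mkC a)
  have h3 := csp_congr hΓ h2 h1.2
  rw [sg, mkC_eq_iff']
  exact csp_unique hΓ h1.1 b.2 h3 h

lemma sg_symm {Γ : Subgroup SL(2, ℝ)} (hΓ : Fuchs Γ) {F : ℍ ≃ₜ ℍ} (hF : HF Γ F) (x : Cusp Γ) :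
    sg hF.symm (sg hF x) = x := by
  obtain ⟨a, rfl⟩ := ind_mkC' x
  obtain ⟨b, hb, hab⟩ := hF.c1 a a.2
  have h1 : Csp F a (⟨b, hb⟩ : Γ) := hab
  rw [sg_spec hΓ hF h1]
  exact sg_spec hΓ hF.symm (csp_symm hΓ hF h1)

theorem goalC5 (h2 : GoalC2) (hB1 : GoalB1) : GoalC5 := by
  intro Γ hΓ F e1 e2 c1 c2
  have hF : HF Γ F := ⟨e1, e2, c1, c2⟩
  let σ : Equiv.Perm (Cusp Γ) := ⟨sg hF, sg hF.symm, sg_symm hΓ hF, sg_symm hΓ hF.symm⟩
  refine ⟨σ, ?_, fun α β h => sg_spec hΓ hF h⟩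
  intro x y z hy hz
  obtain ⟨a, rfl⟩ := ind_mkC' x
  obtain ⟨b, rfl⟩ := ind_mkC' y
  obtain ⟨c, rfl⟩ := ind_mkC' z
  obtain ⟨a', ha'⟩ : ∃ a' : Γ, Csp F a a' := by
    obtain ⟨w, hw, hw'⟩ := c1 a a.2
    exact ⟨⟨w, hw⟩, hw'⟩
  obtain ⟨b', hb'⟩ : ∃ a' : Γ, Csp F b a' := by
    obtain ⟨w, hw, hw'⟩ := c1 b b.2
    exact ⟨⟨w, hw⟩, hw'⟩
  obtain ⟨c', hc'⟩ : ∃ a' : Γ, Csp F c a' := by
    obtain ⟨w, hw, hw'⟩ := c1 c c.2
    exact ⟨⟨w, hw⟩, hw'⟩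
  have sa : σ (mkC a) = mkC a' := sg_spec hΓ hF ha'
  have sb : σ (mkC b) = mkC b' := sg_spec hΓ hF hb'
  have sc : σ (mkC c) = mkC c' := sg_spec hΓ hF hc'
  have nb : mkC b' ≠ mkC a' := by
    rw [← sa, ← sb]
    exact fun h => hy (σ.injective h)
  have nc : mkC c' ≠ mkC a' := by
    rw [← sa, ← sc]
    exact fun h => hz (σ.injective h)
  rw [sa, sb, sc, hB1 Γ hΓ a b c hy hz, hB1 Γ hΓ a' b' c' nb nc]
  apply le_antisymm
  · rw [Nat.ceil_le]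
    exact dist_le h2 hΓ hF ha' hb' hc' hy hz nb nc _ (Nat.le_ceil _)
  · rw [Nat.ceil_le]
    exact dist_le h2 hΓ hF.symm (csp_symm hΓ hF ha') (csp_symm hΓ hF hb') (csp_symm hΓ hF hc')
      nb nc hy hz _ (Nat.le_ceil _)

end Pool.Agent.Helper32.PQ
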