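import Pool.Agent.Helper64.PQ.Goals
import Pool.Agent.Helper32.PQ.C5

set_option autoImplicit false

/-!
Project PQ (MP_2b9d24_gt), packet C8.
-/

open Topology Filter Set Metric UpperHalfPlane
open scoped MatrixGroups
open Pool.Agent.Helper64.PQ

namespace Pool.Agent.Helper32.PQ

section
variable {X : Type*} [TopologicalSpace X]

lemma nu_mem {q r : X} {v : ℍ → X} (hv : NUnif q r v) (z : ℍ) : v z ∈ ({q, r}ᶜ : Set X) := by
  rw [← hv.range]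
  exact ⟨z, rfl⟩

lemma nu_isCov {q r : X} {v : ℍ → X} (hv : NUnif q r v) :
    IsCoveringMap (Set.codRestrict v {q, r}ᶜ (nu_mem hv)) := by
  have e : v ⁻¹' {q, r}ᶜ = univ := by
    ext z
    simp only [mem_preimage, mem_univ, iff_true]
    exact nu_mem hv z
  let g : ℍ ≃ₜ (v ⁻¹' {q, r}ᶜ : Set ℍ) :=
    (Homeomorph.Set.univ ℍ).symm.trans (Homeomorph.setCongr e.symm)
  have h := (hv.cov.isCoveringMap_restrictPreimage).comp_homeomorph g
  convert! h using 1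

lemma nu_eqOn {q r : X} {v : ℍ → X} (hv : NUnif q r v) {A : Type*} [TopologicalSpace A]
    {s : Set A} (hs : IsPreconnected s) {g₁ g₂ : A → ℍ} (h₁ : ContinuousOn g₁ s)
    (h₂ : ContinuousOn g₂ s) (h : ∀ x ∈ s, v (g₁ x) = v (g₂ x)) {x₀ : A} (hx : x₀ ∈ s)
    (h0 : g₁ x₀ = g₂ x₀) : EqOn g₁ g₂ s := by
  refine (nu_isCov hv).eqOn_of_comp_eqOn hs h₁ h₂ ?_ hx h0
  intro x hx'
  apply Subtype.ext
  exact h x hx'

lemma pre_high : IsPreconnected {z : ℍ | 1 < z.im} := by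
  rw [← UpperHalfPlane.isEmbedding_coe.isInducing.isPreconnected_image]
  have e : (fun z : ℍ => (z : ℂ)) '' {z : ℍ | 1 < z.im} = {z : ℂ | 1 < z.im} := by
    ext z
    constructor
    · rintro ⟨w, hw, rfl⟩
      exact hw
    · intro hz
      refine ⟨⟨z, lt_trans zero_lt_one hz⟩, hz, rfl⟩
  rw [e]
  exact (convex_halfSpace_im_gt 1).isPreconnected

/-- The open horoball. -/
def Hb (B : SL(2, ℝ)) (h : ℝ) (δ : SL(2, ℝ)) : Set ℍ := {z | h < ((δ * B)⁻¹ • z : ℍ).im}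

lemma Hb_open (B : SL(2, ℝ)) (h : ℝ) (δ : SL(2, ℝ)) : IsOpen (Hb B h δ) := by
  have h1 : Continuous fun z : ℍ => ((δ * B)⁻¹ • z : ℍ).im :=
    UpperHalfPlane.continuous_im.comp (continuous_const_smul _)
  exact isOpen_lt continuous_const h1

lemma Hb_anti (B : SL(2, ℝ)) {h h' : ℝ} (hh : h ≤ h') (δ : SL(2, ℝ)) : Hb B h' δ ⊆ Hb B h δ :=
  fun _ hz => lt_of_le_of_lt hh hz

lemma Hb_coset {q r s : X} {u : ℍ → X} (hu : NUnif q r u) {B : SL(2, ℝ)} (hB : CuspAt u B s)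
    {δ δ' : SL(2, ℝ)} (hδ : δ ∈ deckG u) (hδ' : δ' ∈ deckG u) {z : ℍ} (hz : z ∈ Hb B 1 δ)
    (hz' : z ∈ Hb B 1 δ') {h : ℝ} (hh : 1 ≤ h) : Hb B h δ ⊆ Hb B h δ' := by
  have hu1 : ∀ v : ℍ, u (B • v) = u ((δ * B) • v) := by
    intro v
    rw [mul_smul]
    exact (hδ (B • v)).symm
  have hu2 : ∀ v : ℍ, u (B • v) = u ((δ' * B) • v) := by
    intro v
    rw [mul_smul]
    exact (hδ' (B • v)).symm
  set p : ℍ := (δ * B)⁻¹ • z with hp
  set p' : ℍ := (δ' * B)⁻¹ • z with hp'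
  have hp1 : 1 < p.im := hz
  have hp1' : 1 < p'.im := hz'
  have h1 : u (B • p) = u (B • p') := by
    rw [hu1, hu2, hp, hp', smul_inv_smul, smul_inv_smul]
  obtain ⟨n, hn⟩ := (hB.par p p' hp1 hp1').1 h1
  have hnT : ∀ v : ℍ, ((Tr n • v : ℍ) : ℂ) = v + n := by
    intro v
    rw [coe_Tr]
    simp
  have hpT : p' = Tr n • p := by
    apply UpperHalfPlane.ext
    rw [hnT, hn]
  have key : EqOn (fun v : ℍ => (δ * B) • v) (fun v : ℍ => (δ' * B) • (Tr n • v))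
      {z : ℍ | 1 < z.im} := by
    apply nu_eqOn hu pre_high
    · exact (continuous_const_smul _).continuousOn
    · exact ((continuous_const_smul _).comp (continuous_const_smul _)).continuousOn
    · intro v hv
      rw [← hu1, ← hu2]
      exact (hB.par v (Tr n • v) hv (by rw [im_Tr]; exact hv)).2 ⟨n, hnT v⟩
    · exact hp1
    · change (δ * B) • p = (δ' * B) • (Tr n • p)
      rw [← hpT, hp, hp', smul_inv_smul, smul_inv_smul]
  intro w hw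
  have h2 : 1 < ((δ * B)⁻¹ • w : ℍ).im := lt_of_le_of_lt hh hw
  have h3 := key h2
  simp only [smul_inv_smul] at h3
  have h4 : (δ' * B)⁻¹ • w = Tr n • ((δ * B)⁻¹ • w) := by
    rw [inv_smul_eq_iff]
    exact h3
  change h < ((δ' * B)⁻¹ • w : ℍ).im
  rw [h4, im_Tr]
  exact hw

end

theorem goalC8' {X : Type*} [TopologicalSpace X] [T2Space X] (q r : X) (u : ℍ → X)
    (hu : NUnif q r u) (s : X) (B : SL(2, ℝ)) (J : OpenPartialHomeomorph ℂ X) (e ζ : ℂ) (R : ℝ)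
    (pt : ℍ) (hs : s = q ∨ s = r) (hB : CuspAt u B s) (hsub : closedBall e R ⊆ J.source)
    (hJe : J e = s) (hζ : ζ ≠ 0) (hζR : ‖ζ‖ ≤ R)
    (hJ : ∀ z ∈ closedBall e R, z ≠ e → J z ≠ q ∧ J z ≠ r) (hpt : u pt = J (e + ζ)) :
    ∃ (δ : deckG u) (a : ℝ → ℍ), ContinuousOn a (Ico 0 1) ∧ a 0 = pt ∧
      (∀ x ∈ Ico (0 : ℝ) 1, u (a x) = J (e + (1 - x : ℝ) * ζ)) ∧
      ∀ h : ℝ, ∃ x₀ < 1, ∀ x ∈ Ioo x₀ 1, 0 ≤ x →
        h < (((δ : SL(2, ℝ)) * B)⁻¹ • a x : ℍ).im := by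
  have hin : ∀ t : ℝ, 0 ≤ t → t ≤ 1 → e + (t : ℂ) * ζ ∈ closedBall e R := by
    intro t ht0 ht1
    rw [mem_closedBall, dist_eq_norm, add_sub_cancel_left, norm_mul, Complex.norm_real,
      Real.norm_of_nonneg ht0]
    calc t * ‖ζ‖ ≤ 1 * ‖ζ‖ := mul_le_mul_of_nonneg_right ht1 (norm_nonneg _)
      _ = ‖ζ‖ := one_mul _
      _ ≤ R := hζR
  have hne : ∀ t : ℝ, 0 < t → e + (t : ℂ) * ζ ≠ e := by
    intro t ht h
    rw [add_eq_left, mul_eq_zero] at h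
    rcases h with h | h
    · exact ht.ne' (by exact_mod_cast h)
    · exact hζ h
  -- the lift
  have hth0 : ∀ y : ℝ, 0 < Real.exp (-max y 0) := fun y => Real.exp_pos _
  have hth1 : ∀ y : ℝ, Real.exp (-max y 0) ≤ 1 := by
    intro y
    rw [Real.exp_le_one_iff]
    have := le_max_right y 0
    linarith
  have hfc : Continuous fun y : ℝ => J (e + ((Real.exp (-max y 0) : ℝ) : ℂ) * ζ) := by
    have h1 : Continuous fun y : ℝ => e + ((Real.exp (-max y 0) : ℝ) : ℂ) * ζ := by fun_prop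
    exact J.continuousOn.comp_continuous h1 (fun y => hsub (hin _ (hth0 y).le (hth1 y)))
  obtain ⟨A, ⟨hA0, hA⟩, -⟩ := hu.cov.existsUnique_continuousMap_lifts
    (⟨fun y : ℝ => J (e + ((Real.exp (-max y 0) : ℝ) : ℂ) * ζ), hfc⟩ : C(ℝ, X)) (a₀ := 0)
    (e₀ := pt) (by
      change u pt = J (e + ((Real.exp (-max 0 0) : ℝ) : ℂ) * ζ)
      rw [hpt, max_self, neg_zero, Real.exp_zero, Complex.ofReal_one, one_mul])
    (by
      intro y
      have h1 := hJ _ (hin _ (hth0 y).le (hth1 y)) (hne _ (hth0 y))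
      change J (e + ((Real.exp (-max y 0) : ℝ) : ℂ) * ζ) ∈ ({q, r}ᶜ : Set X)
      simp only [mem_compl_iff, mem_insert_iff, mem_singleton_iff, not_or]
      exact h1)
  have hA' : ∀ y : ℝ, u (A y) = J (e + ((Real.exp (-max y 0) : ℝ) : ℂ) * ζ) :=
    fun y => congrFun hA y
  set a : ℝ → ℍ := fun x => A (-Real.log (1 - x)) with ha
  have hac : ContinuousOn a (Ico 0 1) := by
    apply A.continuous.comp_continuousOn
    apply ContinuousOn.neg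
    apply ContinuousOn.log
    · fun_prop
    · intro x hx
      have := hx.2
      intro h0
      linarith
  have ha0 : a 0 = pt := by
    rw [ha]
    simp [hA0]
  have hau : ∀ x ∈ Ico (0 : ℝ) 1, u (a x) = J (e + (1 - x : ℝ) * ζ) := by
    intro x hx
    have h1 : 0 < 1 - x := by linarith [hx.2]
    have h2 : Real.log (1 - x) ≤ 0 := Real.log_nonpos h1.le (by linarith [hx.1])
    rw [ha]
    simp only []
    rw [hA', max_eq_left (by linarith), neg_neg, Real.exp_log h1]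
  -- the tail lies in horoballs
  have htend : Tendsto (fun x : ℝ => J (e + (1 - x : ℝ) * ζ)) (𝓝[<] 1) (𝓝[≠] s) := by
    rw [tendsto_nhdsWithin_iff]
    constructor
    · have h1 : Tendsto (fun x : ℝ => e + ((1 - x : ℝ) : ℂ) * ζ) (𝓝[<] 1) (𝓝 e) := by
        have h2 : Continuous fun x : ℝ => e + ((1 - x : ℝ) : ℂ) * ζ := by fun_prop
        have h3 := (h2.tendsto 1).mono_left (nhdsWithin_le_nhds (s := Iio (1 : ℝ)))
        simpa using h3
      have hR : 0 ≤ R := (norm_nonneg _).trans hζR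
      have h4 : ContinuousAt J e := J.continuousAt (hsub (mem_closedBall_self hR))
      have h5 := h4.tendsto.comp h1
      rw [hJe] at h5
      exact h5
    · have h1 : ∀ᶠ x : ℝ in 𝓝[<] 1, x ∈ Ioo (0 : ℝ) 1 := Ioo_mem_nhdsLT one_pos
      filter_upwards [h1] with x hx
      have h2 := hJ _ (hin (1 - x) (by linarith [hx.2]) (by linarith [hx.1]))
        (hne _ (by linarith [hx.2]))
      rcases hs with rfl | rfl
      · exact h2.1
      · exact h2.2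
  have htail : ∀ h : ℝ, ∃ x₀ : ℝ, 0 ≤ x₀ ∧ x₀ < 1 ∧ ∀ x ∈ Ioo x₀ 1, ∃ δ ∈ deckG u,
      a x ∈ Hb B h δ := by
    intro h
    have h1 : (fun z : ℍ => u (B • z)) '' {z : ℍ | h < z.im} ∈ 𝓝[≠] s := by
      rw [← hB.lim]
      apply image_mem_map
      exact ⟨Ioi h, Ioi_mem_atTop h, fun z hz => hz⟩
    have h2 := htend h1
    have h3 : Ioo (0 : ℝ) 1 ∈ 𝓝[<] (1 : ℝ) := Ioo_mem_nhdsLT one_pos
    obtain ⟨x₀, hx₀, hx₀'⟩ := (mem_nhdsLT_iff_exists_Ioo_subset' (one_pos : (0 : ℝ) < 1)).1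
      (inter_mem h2 h3)
    refine ⟨max x₀ 0, le_max_right _ _, max_lt hx₀ one_pos, fun x hx => ?_⟩
    have hx1 : x ∈ Ioo x₀ 1 := ⟨lt_of_le_of_lt (le_max_left _ _) hx.1, hx.2⟩
    obtain ⟨⟨w, hw, hw'⟩, hx2⟩ := hx₀' hx1
    have h4 : u (B • w) = u (a x) := by
      rw [hau x ⟨hx2.1.le, hx2.2⟩]
      exact hw'
    obtain ⟨γ, hγ, hγ'⟩ := hu.deck _ _ h4
    refine ⟨γ, hγ, ?_⟩
    change h < ((γ * B)⁻¹ • a x : ℍ).im
    rw [← hγ', ← mul_smul γ B w, inv_smul_smul]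
    exact hw
  obtain ⟨x₀, hx₀, hx₁, htail1⟩ := htail 1
  obtain ⟨x₂, hx₂⟩ : ∃ x₂, x₂ ∈ Ioo x₀ 1 := ⟨(x₀ + 1) / 2, by constructor <;> linarith⟩
  obtain ⟨δ, hδ, hxδ⟩ := htail1 x₂ hx₂
  have hpre : IsPreconnected (a '' Ioo x₀ 1) := by
    apply isPreconnected_Ioo.image
    apply hac.mono
    intro x hx
    exact ⟨hx₀.trans hx.1.le, hx.2⟩
  have hsubset : a '' Ioo x₀ 1 ⊆ Hb B 1 δ := by
    apply IsPreconnected.subset_left_of_subset_union (Hb_open B 1 δ)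
      (v := ⋃ δ' : {δ' : SL(2, ℝ) // Disjoint (Hb B 1 δ) (Hb B 1 δ')}, Hb B 1 δ') ?_ ?_ ?_ ?_ hpre
    · exact isOpen_iUnion fun _ => Hb_open _ _ _
    · rw [disjoint_iUnion_right]
      exact fun δ' => δ'.2
    · rintro _ ⟨x, hx, rfl⟩
      obtain ⟨δ', hδ', hxδ'⟩ := htail1 x hx
      by_cases hd : Disjoint (Hb B 1 δ) (Hb B 1 δ')
      · right
        exact mem_iUnion.2 ⟨⟨δ', hd⟩, hxδ'⟩
      · left
        obtain ⟨z, hz1, hz2⟩ := not_disjoint_iff.1 hd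
        exact Hb_coset hu hB hδ' hδ hz2 hz1 le_rfl hxδ'
    · exact ⟨a x₂, ⟨x₂, hx₂, rfl⟩, hxδ⟩
  refine ⟨⟨δ, hδ⟩, a, hac, ha0, hau, fun h => ?_⟩
  obtain ⟨x₃, -, hx₃, htail3⟩ := htail (max h 1)
  refine ⟨max x₀ x₃, max_lt hx₁ hx₃, fun x hx _ => ?_⟩
  obtain ⟨δ', hδ', hxδ'⟩ := htail3 x ⟨lt_of_le_of_lt (le_max_right _ _) hx.1, hx.2⟩
  have h1 : a x ∈ Hb B 1 δ :=
    hsubset ⟨x, ⟨lt_of_le_of_lt (le_max_left _ _) hx.1, hx.2⟩, rfl⟩
  have h2 : a x ∈ Hb B 1 δ' := Hb_anti B (le_max_right _ _) δ' hxδ'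
  have h3 := Hb_coset hu hB hδ' hδ h2 h1 (le_max_right h 1) hxδ'
  exact lt_of_le_of_lt (le_max_left _ _) h3

theorem goalC8.{v} (_h0 : GoalC0.{v}) : GoalC8.{v} := by
  intro X _ _ q r u hu s B J e ζ R pt hs hB hsub hJe hζ hζR hJ hpt
  exact goalC8' q r u hu s B J e ζ R pt hs hB hsub hJe hζ hζR hJ hpt

end Pool.Agent.Helper32.PQ
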